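import Mathlib

set_option autoImplicit false

namespace Pool.Agent.R842.Cell

/-- `a + b φ` coded as `(a, b)`. -/
abbrev Z2 := ℤ × ℤ

def zadd (x y : Z2) : Z2 := (x.1 + y.1, x.2 + y.2)
def zneg (x : Z2) : Z2 := (-x.1, -x.2)
def zmul (x y : Z2) : Z2 := (x.1 * y.1 + x.2 * y.2, x.1 * y.2 + x.2 * y.1 + x.2 * y.2)
def zhalf (x : Z2) : Z2 := (x.1 / 2, x.2 / 2)
def zeven (x : Z2) : Bool := x.1 % 2 == 0 && x.2 % 2 == 0
def zeq (x y : Z2) : Bool := x.1 == y.1 && x.2 == y.2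

/-- coded vectors -/
structure C4 where
  x0 : Z2
  x1 : Z2
  x2 : Z2
  x3 : Z2

def C4.get (c : C4) : Fin 4 → Z2 := ![c.x0, c.x1, c.x2, c.x3]

/-- the twelve even permutations, as a list of functions -/
def evenList : List (Fin 4 → Fin 4) :=
  [![0,1,2,3], ![0,2,3,1], ![0,3,1,2], ![1,0,3,2], ![1,2,0,3], ![1,3,2,0],
   ![2,0,1,3], ![2,1,3,0], ![2,3,0,1], ![3,0,2,1], ![3,1,0,2], ![3,2,1,0]]

def sgn (s : Bool) (z : Z2) : Z2 := if s then zneg z else z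

def bools : List Bool := [false, true]

def signP (s0 s1 s2 s3 : Bool) (p : Fin 4 → Fin 4) (c : C4) : C4 :=
  ⟨sgn s0 (c.get (p 0)), sgn s1 (c.get (p 1)), sgn s2 (c.get (p 2)), sgn s3 (c.get (p 3))⟩

def dot (a c : C4) : Z2 :=
  zadd (zadd (zmul a.x0 c.x0) (zmul a.x1 c.x1)) (zadd (zmul a.x2 c.x2) (zmul a.x3 c.x3))

def rf (a c : C4) : C4 :=
  let d := zneg (zhalf (dot a c))
  ⟨zadd c.x0 (zmul d a.x0), zadd c.x1 (zmul d a.x1), zadd c.x2 (zmul d a.x2),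
    zadd c.x3 (zmul d a.x3)⟩

def pm (x y : Z2) : Bool := zeq x y || zeq x (zneg y)

def inFam (b c : C4) : Bool :=
  evenList.any fun p => pm c.x0 (b.get (p 0)) && pm c.x1 (b.get (p 1)) &&
    pm c.x2 (b.get (p 2)) && pm c.x3 (b.get (p 3))

def chkInv (B : List C4) (a : C4) : Bool :=
  B.all fun b => evenList.all fun p => bools.all fun s0 => bools.all fun s1 => bools.all fun s2 =>
    bools.all fun s3 =>
      zeven (dot a (signP s0 s1 s2 s3 p b)) && B.any fun b' => inFam b' (rf a (signP s0 s1 s2 s3 p b))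

def chkHub (B : List C4) (a h : C4) : Bool :=
  B.all fun b => evenList.any fun p => bools.any fun s0 => bools.any fun s1 => bools.any fun s2 =>
    bools.any fun s3 => inFam h (rf a (signP s0 s1 s2 s3 p b))

def B120 : List C4 :=
  [⟨(0,0),(0,0),(2,0),(2,0)⟩, ⟨(1,0),(1,0),(1,0),(-1,2)⟩, ⟨(0,1),(0,1),(0,1),(2,-1)⟩,
   ⟨(-1,1),(-1,1),(-1,1),(1,1)⟩, ⟨(0,0),(2,-1),(1,0),(1,1)⟩, ⟨(0,0),(-1,1),(0,1),(-1,2)⟩,
   ⟨(-1,1),(1,0),(0,1),(2,0)⟩]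

def a120 : C4 := ⟨(0,0),(0,1),(1,0),(-1,1)⟩

def B600 : List C4 := [⟨(2,0),(0,0),(0,0),(0,0)⟩, ⟨(1,0),(1,0),(1,0),(1,0)⟩, ⟨(0,0),(-1,1),(1,0),(0,1)⟩]

def a600 : C4 := ⟨(0,0),(-1,1),(1,0),(0,1)⟩

theorem inv120 : chkInv B120 a120 = true := by decide +kernel
theorem inv600 : chkInv B600 a600 = true := by decide +kernel
theorem hub120 : chkHub B120 a120 ⟨(-1,1),(1,0),(0,1),(2,0)⟩ = true := by decide +kernel
theorem hub600 : chkHub B600 a600 ⟨(0,0),(-1,1),(1,0),(0,1)⟩ = true := by decide +kernel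

end Pool.Agent.R842.Cell
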