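import Pool.Agent.R842.Cell.Real

set_option autoImplicit false

namespace Pool.Agent.R842.Cell

open scoped Real InnerProductSpace

/-- `x` is mapped to `y` by a symmetry of `X`. -/
def Rel (X : Set E4) (x y : E4) : Prop := ∃ g : E4 ≃ᵢ E4, ⇑g '' X = X ∧ g x = y

theorem Rel.symm {X : Set E4} {x y : E4} (h : Rel X x y) : Rel X y x := by
  obtain ⟨g, hg, rfl⟩ := h
  refine ⟨g.symm, ?_, g.symm_apply_apply x⟩
  conv_lhs => rw [← hg]
  rw [← Set.image_comp]
  have : (⇑g.symm ∘ ⇑g : E4 → E4) = id := by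
    funext z; exact g.symm_apply_apply z
  rw [this, Set.image_id]

theorem Rel.trans {X : Set E4} {x y z : E4} (h : Rel X x y) (h' : Rel X y z) : Rel X x z := by
  obtain ⟨g, hg, rfl⟩ := h
  obtain ⟨g', hg', rfl⟩ := h'
  refine ⟨g.trans g', ?_, rfl⟩
  have : (⇑(g.trans g') : E4 → E4) = ⇑g' ∘ ⇑g := rfl
  rw [this, Set.image_comp, hg, hg']

theorem image_eq_of_subset {X : Set E4} (hX : X.Finite) (g : E4 → E4) (hg : Function.Injective g)
    (h : ∀ x ∈ X, g x ∈ X) : g '' X = X := by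
  apply Set.eq_of_subset_of_ncard_le
  · rintro _ ⟨x, hx, rfl⟩
    exact h x hx
  · rw [Set.ncard_image_of_injective _ hg]
  · exact hX

/-- a signed permutation of the coordinates -/
noncomputable def sp (σ : Equiv.Perm (Fin 4)) (s : Fin 4 → Bool) : E4 ≃ₗᵢ[ℝ] E4 :=
  (LinearIsometryEquiv.piLpCongrLeft 2 ℝ ℝ σ.symm).trans
    (LinearIsometryEquiv.piLpCongrRight 2 fun i =>
      if s i then LinearIsometryEquiv.neg ℝ else LinearIsometryEquiv.refl ℝ ℝ)

theorem sp_apply (σ : Equiv.Perm (Fin 4)) (s : Fin 4 → Bool) (x : E4) (i : Fin 4) :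
    sp σ s x i = if s i then -x (σ i) else x (σ i) := by
  simp only [sp, LinearIsometryEquiv.trans_apply]
  cases h : s i <;> simp [h, LinearIsometryEquiv.piLpCongrLeft_apply, Equiv.piCongrLeft']

theorem abs_sp (σ : Equiv.Perm (Fin 4)) (s : Fin 4 → Bool) (x : E4) (i : Fin 4) :
    |sp σ s x i| = |x (σ i)| := by
  rw [sp_apply]
  split_ifs
  · exact abs_neg _
  · rfl

theorem sp_mem {v : Fin 4 → ℝ} {σ : Equiv.Perm (Fin 4)} (hσ : Equiv.Perm.sign σ = 1)
    (s : Fin 4 → Bool) {x : E4} (hx : x ∈ ESP v) : sp σ s x ∈ ESP v := by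
  obtain ⟨τ, hτ, h⟩ := hx
  refine ⟨τ * σ, by rw [Equiv.Perm.sign_mul, hσ, hτ]; rfl, fun i => ?_⟩
  rw [abs_sp, h (σ i), Equiv.Perm.mul_apply]

theorem finite_ESP (b : C4) : (ESP (rv b)).Finite := by
  have h : (ESP (rv b)) ⊆ Set.range (fun q : {p // p ∈ evenList} × Bool × Bool × Bool × Bool =>
      iota (signP q.2.1 q.2.2.1 q.2.2.2.1 q.2.2.2.2 q.1.1 b)) := by
    intro x hx
    obtain ⟨p, hp, s0, s1, s2, s3, rfl⟩ := exists_code hx
    exact ⟨⟨⟨p, hp⟩, s0, s1, s2, s3⟩, rfl⟩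
  have hf : Finite {p // p ∈ evenList} := List.finite_toSet evenList
  exact (Set.finite_range _).subset h

theorem finite_VB (B : List C4) : (VB B).Finite := by
  have : VB B = ⋃ b ∈ {b | b ∈ B}, ESP (rv b) := by
    ext x
    simp [VB]
  rw [this]
  exact (List.finite_toSet B).biUnion fun b _ => finite_ESP b

/-- symmetries of the union from the signed permutations -/
theorem rel_same {B : List C4} {b : C4} (hb : b ∈ B) {x y : E4} (hx : x ∈ ESP (rv b))
    (hy : y ∈ ESP (rv b)) : Rel (VB B) x y := by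
  obtain ⟨σ, hσ, h⟩ := hx
  obtain ⟨τ, hτ, h'⟩ := hy
  -- |y i| = v (τ i) = |x (σ⁻¹ (τ i))|
  let ρ : Equiv.Perm (Fin 4) := σ⁻¹ * τ
  have hρ : Equiv.Perm.sign ρ = 1 := by
    rw [Equiv.Perm.sign_mul, Equiv.Perm.sign_inv, hσ, hτ]; rfl
  have habs : ∀ i, |y i| = |x (ρ i)| := by
    intro i
    rw [h' i, h (ρ i)]
    simp [ρ, Equiv.Perm.mul_apply]
  let s : Fin 4 → Bool := fun i => decide (y i ≠ x (ρ i))
  refine ⟨(sp ρ s).toIsometryEquiv, ?_, ?_⟩
  · apply image_eq_of_subset (finite_VB B)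
    · exact (sp ρ s).injective
    · rintro z ⟨b', hb', hz⟩
      exact ⟨b', hb', sp_mem hρ s hz⟩
  · ext i
    show sp ρ s x i = y i
    rw [sp_apply]
    by_cases h1 : y i = x (ρ i)
    · have h2 : s i = false := by simp [s, h1]
      rw [h2]
      exact h1.symm
    · have h2 : s i = true := by simp [s, h1]
      rw [h2]
      rcases (abs_eq_abs.1 (habs i)) with h3 | h3
      · exact absurd h3 h1
      · simp [h3]

theorem base_mem {b : C4} (hb : ∀ i, 0 ≤ rv b i) : iota b ∈ ESP (rv b) :=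
  ⟨1, by simp, fun i => by
    rw [iota_apply, Equiv.Perm.one_apply]
    exact abs_of_nonneg (hb i)⟩

theorem rr_mem {B : List C4} {a : C4} (hB : ∀ b ∈ B, ∀ i, 0 ≤ rv b i) (ha : re (dot a a) = 4)
    (h : chkInv B a = true) {x : E4} (hx : x ∈ VB B) : rr a x ∈ VB B := by
  obtain ⟨b, hb, hx⟩ := hx
  obtain ⟨p, hp, s0, s1, s2, s3, rfl⟩ := exists_code hx
  have hs : ∀ s : Bool, s ∈ bools := by intro s; cases s <;> simp [bools]
  have h1 := List.all_eq_true.1 h b hb
  have h2 := List.all_eq_true.1 h1 p hp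
  have h3 := List.all_eq_true.1 h2 s0 (hs s0)
  have h4 := List.all_eq_true.1 h3 s1 (hs s1)
  have h5 := List.all_eq_true.1 h4 s2 (hs s2)
  have h6 := List.all_eq_true.1 h5 s3 (hs s3)
  rw [Bool.and_eq_true] at h6
  rw [rr_iota ha _ h6.1]
  obtain ⟨b', hb', h7⟩ := List.any_eq_true.1 h6.2
  exact ⟨b', hb', inFam_sound (hB b' hb') h7⟩

theorem rel_rr {B : List C4} {a : C4} (hB : ∀ b ∈ B, ∀ i, 0 ≤ rv b i) (ha : re (dot a a) = 4)
    (h : chkInv B a = true) (x : E4) : Rel (VB B) x (rr a x) := by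
  refine ⟨(rr a).toIsometryEquiv, ?_, rfl⟩
  apply image_eq_of_subset (finite_VB B)
  · exact (rr a).injective
  · intro z hz
    exact rr_mem hB ha h hz

theorem transitive {B : List C4} {a hub : C4} (hB : ∀ b ∈ B, ∀ i, 0 ≤ rv b i)
    (ha : re (dot a a) = 4) (h : chkInv B a = true) (hh : hub ∈ B)
    (h' : chkHub B a hub = true) {x y : E4} (hx : x ∈ VB B) (hy : y ∈ VB B) :
    Rel (VB B) x y := by
  have key : ∀ x ∈ VB B, Rel (VB B) x (iota hub) := by
    rintro x ⟨b, hb, hx⟩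
    have h1 := List.all_eq_true.1 h' b hb
    simp only [List.any_eq_true] at h1
    obtain ⟨p, hp, s0, -, s1, -, s2, -, s3, -, h2⟩ := h1
    have hs : ∀ s : Bool, s ∈ bools := by intro s; cases s <;> simp [bools]
    have g1 := List.all_eq_true.1 h b hb
    have g2 := List.all_eq_true.1 g1 p hp
    have g3 := List.all_eq_true.1 g2 s0 (hs s0)
    have g4 := List.all_eq_true.1 g3 s1 (hs s1)
    have g5 := List.all_eq_true.1 g4 s2 (hs s2)
    have g6 := List.all_eq_true.1 g5 s3 (hs s3)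
    rw [Bool.and_eq_true] at g6
    have h3 : iota (signP s0 s1 s2 s3 p b) ∈ ESP (rv b) := by
      obtain ⟨σ, hσ, hσp⟩ := evenList_perm p hp
      refine ⟨σ, hσ, fun i => ?_⟩
      rw [iota_signP, hσp i]
      have h4 := hB b hb (p i)
      split_ifs
      · rw [abs_neg]; exact abs_of_nonneg h4
      · exact abs_of_nonneg h4
    have h5 := inFam_sound (hB hub hh) h2
    rw [← rr_iota ha _ g6.1] at h5
    exact ((rel_same hb hx h3).trans (rel_rr hB ha h _)).trans
      (rel_same hh h5 (base_mem (hB hub hh)))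
  exact (key x hx).trans (key y hy).symm

end Pool.Agent.R842.Cell
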