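import Pool.Agent.R842.Cell.Code

set_option autoImplicit false

namespace Pool.Agent.R842.Cell

open scoped Real InnerProductSpace

abbrev E4 := EuclideanSpace ℝ (Fin 4)

/-- All vectors obtained from `v` (with nonnegative entries) by permutations and sign changes of the
coordinates. -/
def SP (v : Fin 4 → ℝ) : Set E4 := {x | ∃ σ : Equiv.Perm (Fin 4), ∀ i, |x i| = v (σ i)}

/-- All vectors obtained from `v` (with nonnegative entries) by even permutations and sign changes
of the coordinates. -/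
def ESP (v : Fin 4 → ℝ) : Set E4 :=
  {x | ∃ σ : Equiv.Perm (Fin 4), Equiv.Perm.sign σ = 1 ∧ ∀ i, |x i| = v (σ i)}

theorem SP_eq (v : Fin 4 → ℝ) (i0 i1 : Fin 4) (h : i0 ≠ i1) (hv : v i0 = v i1) :
    SP v = ESP v := by
  ext x
  constructor
  · rintro ⟨σ, hσ⟩
    rcases Int.units_eq_one_or (Equiv.Perm.sign σ) with h1 | h1
    · exact ⟨σ, h1, hσ⟩
    · refine ⟨Equiv.swap i0 i1 * σ, by rw [Equiv.Perm.sign_mul, h1, Equiv.Perm.sign_swap h]; rfl, ?_⟩
      intro i
      rw [hσ i, Equiv.Perm.mul_apply]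
      by_cases h2 : σ i = i0
      · rw [h2, Equiv.swap_apply_left, hv]
      · by_cases h3 : σ i = i1
        · rw [h3, Equiv.swap_apply_right, hv]
        · rw [Equiv.swap_apply_of_ne_of_ne h2 h3]
  · rintro ⟨σ, -, hσ⟩
    exact ⟨σ, hσ⟩

/-- The real number coded by a pair. -/
noncomputable def re (z : Z2) : ℝ := z.1 + z.2 * Real.goldenRatio

theorem re_add (x y : Z2) : re (zadd x y) = re x + re y := by
  simp only [re, zadd]; push_cast; ring

theorem re_neg (x : Z2) : re (zneg x) = -re x := by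
  simp only [re, zneg]; push_cast; ring

theorem re_mul (x y : Z2) : re (zmul x y) = re x * re y := by
  simp only [re, zmul]
  push_cast
  have h := Real.goldenRatio_sq
  linear_combination (-(x.2 * y.2 : ℝ)) * h

theorem re_half (x : Z2) (h : zeven x = true) : 2 * re (zhalf x) = re x := by
  simp only [zeven, Bool.and_eq_true, beq_iff_eq] at h
  obtain ⟨h1, h2⟩ := h
  simp only [re, zhalf]
  have e1 : ((x.1 / 2 : ℤ) : ℝ) * 2 = x.1 := by
    have : x.1 / 2 * 2 = x.1 := by omega
    exact_mod_cast this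
  have e2 : ((x.2 / 2 : ℤ) : ℝ) * 2 = x.2 := by
    have : x.2 / 2 * 2 = x.2 := by omega
    exact_mod_cast this
  linear_combination e1 + e2 * Real.goldenRatio

theorem re_zeq {x y : Z2} (h : zeq x y = true) : re x = re y := by
  simp only [zeq, Bool.and_eq_true, beq_iff_eq] at h
  simp only [re, h.1, h.2]

theorem re_pm {x y : Z2} (h : pm x y = true) : re x = re y ∨ re x = -re y := by
  simp only [pm, Bool.or_eq_true] at h
  rcases h with h | h
  · exact Or.inl (re_zeq h)
  · right
    rw [re_zeq h, re_neg]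

theorem re_sgn (s : Bool) (z : Z2) : re (sgn s z) = if s then -re z else re z := by
  cases s
  · rfl
  · exact re_neg z

/-- The real vector with given code. -/
noncomputable def iota (c : C4) : E4 := WithLp.toLp 2 fun i => re (c.get i)

theorem iota_apply (c : C4) (i : Fin 4) : iota c i = re (c.get i) := rfl

theorem iota_signP (s0 s1 s2 s3 : Bool) (p : Fin 4 → Fin 4) (c : C4) (i : Fin 4) :
    iota (signP s0 s1 s2 s3 p c) i = if (![s0, s1, s2, s3] i) then -re (c.get (p i)) else
      re (c.get (p i)) := by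
  rw [iota_apply]
  fin_cases i
  · exact re_sgn _ _
  · exact re_sgn _ _
  · exact re_sgn _ _
  · exact re_sgn _ _

theorem mem_evenList : ∀ σ : Equiv.Perm (Fin 4), Equiv.Perm.sign σ = 1 →
    ∃ p ∈ evenList, ∀ i, σ i = p i := by decide +kernel

theorem evenList_perm : ∀ p ∈ evenList, ∃ σ : Equiv.Perm (Fin 4), Equiv.Perm.sign σ = 1 ∧
    ∀ i, σ i = p i := by decide +kernel

/-- the vector `b` as a function with real values -/
noncomputable def rv (b : C4) : Fin 4 → ℝ := fun i => re (b.get i)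

theorem exists_code {b : C4} {x : E4} (hx : x ∈ ESP (rv b)) :
    ∃ p ∈ evenList, ∃ s0 s1 s2 s3 : Bool, iota (signP s0 s1 s2 s3 p b) = x := by
  obtain ⟨σ, hσ, h⟩ := hx
  obtain ⟨p, hp, hpσ⟩ := mem_evenList σ hσ
  refine ⟨p, hp, decide (x 0 < 0), decide (x 1 < 0), decide (x 2 < 0), decide (x 3 < 0), ?_⟩
  ext i
  rw [iota_signP]
  have key : ∀ i, (if x i < 0 then -re (b.get (p i)) else re (b.get (p i))) = x i := by
    intro i
    have h1 : |x i| = re (b.get (p i)) := by rw [h i, hpσ i]; rfl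
    split_ifs with h2
    · rw [← h1, abs_of_neg h2]; ring
    · rw [← h1, abs_of_nonneg (not_lt.1 h2)]
  rw [← key i]
  fin_cases i <;> simp

theorem inFam_sound {b c : C4} (hb : ∀ i, 0 ≤ rv b i) (h : inFam b c = true) :
    iota c ∈ ESP (rv b) := by
  simp only [inFam, List.any_eq_true, Bool.and_eq_true] at h
  obtain ⟨p, hp, ⟨⟨⟨h0, h1⟩, h2⟩, h3⟩⟩ := h
  obtain ⟨σ, hσ, hσp⟩ := evenList_perm p hp
  refine ⟨σ, hσ, ?_⟩
  intro i
  rw [hσp i]
  have key : re (c.get i) = re (b.get (p i)) ∨ re (c.get i) = -re (b.get (p i)) := by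
    fin_cases i
    · exact re_pm h0
    · exact re_pm h1
    · exact re_pm h2
    · exact re_pm h3
  rw [iota_apply]
  have h4 : 0 ≤ re (b.get (p i)) := hb (p i)
  rcases key with h5 | h5
  · rw [h5, abs_of_nonneg h4]; rfl
  · rw [h5, abs_neg, abs_of_nonneg h4]; rfl

/-- The union of the families of a list. -/
def VB (B : List C4) : Set E4 := {x | ∃ b ∈ B, x ∈ ESP (rv b)}

/-- The reflection in the hyperplane orthogonal to `a`. -/
noncomputable def rr (a : C4) : E4 ≃ₗᵢ[ℝ] E4 := (Submodule.span ℝ {iota a})ᗮ.reflection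

theorem inner_iota (a c : C4) : ⟪iota a, iota c⟫_ℝ = re (dot a c) := by
  rw [PiLp.inner_apply, Fin.sum_univ_four]
  simp only [dot, re_add, re_mul, iota_apply]
  simp only [RCLike.inner_apply, conj_trivial, C4.get, Matrix.cons_val_zero, Matrix.cons_val_one,
    Matrix.cons_val]
  ring

theorem rr_apply {a : C4} (ha : re (dot a a) = 4) (x : E4) :
    rr a x = x - (⟪iota a, x⟫_ℝ / 2) • iota a := by
  have hn : ‖iota a‖ ^ 2 = 4 := by
    rw [← real_inner_self_eq_norm_sq, inner_iota, ha]
  rw [rr, Submodule.reflection_orthogonal_apply, Submodule.reflection_singleton_apply]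
  simp only [RCLike.ofReal_real_eq_id, id_eq]
  rw [hn, neg_sub, ← smul_assoc]
  congr 2
  simp only [nsmul_eq_mul, smul_eq_mul]
  push_cast
  ring

theorem rr_iota {a : C4} (ha : re (dot a a) = 4) (c : C4) (h : zeven (dot a c) = true) :
    rr a (iota c) = iota (rf a c) := by
  rw [rr_apply ha, inner_iota, ← re_half _ h]
  ext i
  rw [PiLp.sub_apply, PiLp.smul_apply, iota_apply, iota_apply, iota_apply]
  fin_cases i
  all_goals
    simp only [rf, C4.get, smul_eq_mul]
    simp only [Fin.zero_eta, Fin.mk_one, Fin.reduceFinMk, Matrix.cons_val_zero,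
      Matrix.cons_val_one, Matrix.cons_val, re_add, re_mul, re_neg]
    ring

end Pool.Agent.R842.Cell
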